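import Mathlib
import Pool.Agent.H10.SCC

set_option autoImplicit false

namespace Pool.Agent.Results.MP_b9ebd9_co.Counter

open Finset SimpleGraph Pool.Agent.H10 Pool.Agent.H10.SCC

/-- More than three vertices, and connected after deleting any fewer than three vertices. -/
def ThreeConn {n : ℕ} (G : SimpleGraph (Fin n)) : Prop :=
  3 < n ∧ ∀ S : Finset (Fin n), S.card < 3 → (G.induce ((↑S : Set (Fin n))ᶜ)).Connected

/-- The length of a shortest closed walk that traverses every edge. -/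
noncomputable def cpp {n : ℕ} (G : SimpleGraph (Fin n)) : ℕ :=
  sInf {l | ∃ (u : Fin n) (p : G.Walk u u), (∀ e ∈ G.edgeSet, e ∈ p.edges) ∧ p.length = l}

/-- The least total length of a family of cycles covering every edge. -/
noncomputable def scc {n : ℕ} (G : SimpleGraph (Fin n)) : ℕ :=
  sInf {l | ∃ F : List (Σ u : Fin n, G.Walk u u), (∀ c ∈ F, c.2.IsCycle) ∧
    (∀ e ∈ G.edgeSet, ∃ c ∈ F, e ∈ c.2.edges) ∧ (F.map (fun c => c.2.length)).sum = l}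

open Classical in
/-- `w` takes the values 1, 2 on the edges and every edge cut has even total weight. -/
def Eulerian {n : ℕ} (G : SimpleGraph (Fin n)) (w : Sym2 (Fin n) → ℕ) : Prop :=
  (∀ e ∈ G.edgeSet, w e = 1 ∨ w e = 2) ∧
  ∀ S : Finset (Fin n), Even (∑ u ∈ S, ∑ v ∈ Sᶜ, if G.Adj u v then w s(u, v) else 0)

/-- There is a family of cycles in which each edge `e` lies in exactly `w e` members. -/
def Coverable {n : ℕ} (G : SimpleGraph (Fin n)) (w : Sym2 (Fin n) → ℕ) : Prop :=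
  ∃ F : List (Σ u : Fin n, G.Walk u u), (∀ c ∈ F, c.2.IsCycle) ∧
    ∀ e ∈ G.edgeSet, F.countP (fun c => decide (e ∈ c.2.edges)) = w e

lemma pet : ∀ x0 < 2, ∀ x15 < 2, ∀ x16 < 2, (x0 + (x15 + (x16 + 0))) % 2 = 0 →
    ∀ x4 < 2, ∀ x17 < 2, (x4 + (x15 + (x17 + 0))) % 2 = 0 →
    ∀ x5 < 2, (x5 + (x16 + (x17 + 0))) % 2 = 0 →
    ∀ x1 < 2, ∀ x6 < 2, (x0 + (x1 + (x6 + 0))) % 2 = 0 →
    ∀ x2 < 2, ∀ x7 < 2, (x1 + (x2 + (x7 + 0))) % 2 = 0 →
    ∀ x3 < 2, ∀ x8 < 2, (x2 + (x3 + (x8 + 0))) % 2 = 0 →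
    ∀ x9 < 2, (x3 + (x4 + (x9 + 0))) % 2 = 0 →
    ∀ x10 < 2, ∀ x13 < 2, (x5 + (x10 + (x13 + 0))) % 2 = 0 →
    ∀ x12 < 2, (x7 + (x10 + (x12 + 0))) % 2 = 0 →
    ∀ x14 < 2, (x9 + (x12 + (x14 + 0))) % 2 = 0 →
    ∀ x11 < 2, (x6 + (x11 + (x14 + 0))) % 2 = 0 →
    (x8 + (x11 + (x13 + 0))) % 2 = 0 →
    (x5 + x6 + x7 + x8 + x9 ≤ x0 + x1 + x2 + x3 + x4 + x10 + x11 + x12 + x13 + x14) ∧ (x5 + x6 + x7 + x8 + x9 = x0 + x1 + x2 + x3 + x4 + x10 + x11 + x12 + x13 + x14 → (x0 + x1 + x2 + x3 + x4 + x10 + x11 + x12 + x13 + x14) % 4 = 0) := by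
  have : (all2 fun x0 => all2 fun x15 => all2 fun x16 => imp ((x0 + (x15 + (x16 + 0))) % 2 = 0) <|
    all2 fun x4 => all2 fun x17 => imp ((x4 + (x15 + (x17 + 0))) % 2 = 0) <|
    all2 fun x5 => imp ((x5 + (x16 + (x17 + 0))) % 2 = 0) <|
    all2 fun x1 => all2 fun x6 => imp ((x0 + (x1 + (x6 + 0))) % 2 = 0) <|
    all2 fun x2 => all2 fun x7 => imp ((x1 + (x2 + (x7 + 0))) % 2 = 0) <|
    all2 fun x3 => all2 fun x8 => imp ((x2 + (x3 + (x8 + 0))) % 2 = 0) <|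
    all2 fun x9 => imp ((x3 + (x4 + (x9 + 0))) % 2 = 0) <|
    all2 fun x10 => all2 fun x13 => imp ((x5 + (x10 + (x13 + 0))) % 2 = 0) <|
    all2 fun x12 => imp ((x7 + (x10 + (x12 + 0))) % 2 = 0) <|
    all2 fun x14 => imp ((x9 + (x12 + (x14 + 0))) % 2 = 0) <|
    all2 fun x11 => imp ((x6 + (x11 + (x14 + 0))) % 2 = 0) <|
    imp ((x8 + (x11 + (x13 + 0))) % 2 = 0) <|
    decide ((x5 + x6 + x7 + x8 + x9 ≤ x0 + x1 + x2 + x3 + x4 + x10 + x11 + x12 + x13 + x14) ∧ (x5 + x6 + x7 + x8 + x9 = x0 + x1 + x2 + x3 + x4 + x10 + x11 + x12 + x13 + x14 → (x0 + x1 + x2 + x3 + x4 + x10 + x11 + x12 + x13 + x14) % 4 = 0))) = true := by decide +kernel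
  simpa only [all2_spec, imp_spec, decide_eq_true_eq] using this

def nb (v : Fin 12) : List (Fin 12) :=
  match v.1 with
  | 0 => [1, 10, 11]
  | 1 => [0, 2, 6]
  | 2 => [1, 3, 7]
  | 3 => [2, 4, 8]
  | 4 => [3, 10, 9]
  | 5 => [11, 7, 8]
  | 6 => [1, 8, 9]
  | 7 => [2, 5, 9]
  | 8 => [3, 6, 5]
  | 9 => [4, 7, 6]
  | 10 => [4, 0, 11]
  | 11 => [5, 0, 10]
  | _ => []

def G : SimpleGraph (Fin 12) where
  Adj v w := w ∈ nb v
  symm := ⟨by
    have : ∀ v : Fin 12, ∀ w ∈ nb v, v ∈ nb w := by decide +kernel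
    exact fun v w h => this v w h⟩
  loopless := ⟨by
    have : ∀ v : Fin 12, v ∉ nb v := by decide +kernel
    exact this⟩

instance : DecidableRel G.Adj := fun v w => inferInstanceAs (Decidable (w ∈ nb v))

def L : List (ℕ × ℕ) :=
  [(0, 3074), (1, 69), (2, 138), (3, 276), (4, 1544), (5, 2432), (6, 770), (7, 548), (8, 104), (9, 208), (10, 2065), (11, 1057)]

lemma conn : ThreeConn G := by
  refine ⟨by norm_num, Conn.three_conn (by norm_num) G L ?_ 8 (by decide +kernel)⟩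
  have : ∀ p ∈ L, ∀ v : Fin 12, v.1 = p.1 → ∀ w : Fin 12, p.2.testBit w.1 → G.Adj v w := by
    decide +kernel
  exact fun p hp v w h1 h2 => this p hp v h1 w h2

lemma nsum (f : Fin 12 → ℕ) (v : Fin 12) (h : ∀ w, ¬ G.Adj v w → f w = 0) :
    ∑ w, f w = ((nb v).map f).sum := by
  have nd : ∀ v, (nb v).Nodup := by decide +kernel
  rw [← List.sum_toFinset f (nd v)]
  symm
  refine sum_subset (subset_univ _) (fun w _ hw => h w ?_)
  exact fun h' => hw (List.mem_toFinset.2 h')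

lemma cnt0 {u v : Fin 12} (p : G.Walk u v) (x y : Fin 12) (h : ¬ G.Adj x y) :
    p.edges.count s(x, y) = 0 :=
  List.count_eq_zero.2 (fun h' => h (p.adj_of_mem_edges h'))

lemma closed {u : Fin 12} (p : G.Walk u u) (v : Fin 12) :
    (∑ y, p.edges.count s(v, y)) % 2 = 0 := by
  have := par p v
  revert this
  split_ifs <;> omega

lemma low (f : Fin 12 → Fin 12 → ℕ) (h1 : ∀ x y, G.Adj x y → 1 ≤ f x y)
    (h2 : ∀ x, (∑ y, f x y) % 2 = 0) : 48 ≤ ∑ x, ∑ y, f x y := by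
  have key : ∀ x, 4 ≤ ∑ y, f x y := by
    intro x
    have h3 : ∑ y, (if G.Adj x y then 1 else 0) ≤ ∑ y, f x y :=
      sum_le_sum (fun y _ => by split_ifs with h; exacts [h1 x y h, Nat.zero_le _])
    have h4 : ∀ x, ∑ y, (if G.Adj x y then 1 else 0) = 3 := by decide +kernel
    have := h2 x
    rw [h4] at h3
    omega
  calc 48 = ∑ _x : Fin 12, 4 := by simp
    _ ≤ _ := sum_le_sum (fun x _ => key x)

def mu (F : List (Σ u : Fin 12, G.Walk u u)) (x y : Fin 12) : ℕ :=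
  (F.map (fun c => c.2.edges.count s(x, y))).sum

def Good (f : Fin 12 → Fin 12 → ℕ) : Prop :=
  (f 11 5 + f 1 6 + f 2 7 + f 3 8 + f 4 9 ≤ f 0 1 + f 1 2 + f 2 3 + f 3 4 + f 4 10 + f 5 7 + f 6 8 + f 7 9 + f 8 5 + f 9 6) ∧
  (f 11 5 + f 1 6 + f 2 7 + f 3 8 + f 4 9 = f 0 1 + f 1 2 + f 2 3 + f 3 4 + f 4 10 + f 5 7 + f 6 8 + f 7 9 + f 8 5 + f 9 6 → (f 0 1 + f 1 2 + f 2 3 + f 3 4 + f 4 10 + f 5 7 + f 6 8 + f 7 9 + f 8 5 + f 9 6) % 4 = 0)

lemma good_one (f : Fin 12 → Fin 12 → ℕ) (hs : ∀ x y, f x y = f y x)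
    (h1 : ∀ x y, f x y < 2) (hp : ∀ v, ((nb v).map (f v)).sum % 2 = 0) : Good f := by
  have p0 : (f 0 1 + (f 0 10 + (f 0 11 + 0))) % 2 = 0 := hp 0
  have p1 : (f 1 0 + (f 1 2 + (f 1 6 + 0))) % 2 = 0 := hp 1
  rw [hs 1 0] at p1
  have p2 : (f 2 1 + (f 2 3 + (f 2 7 + 0))) % 2 = 0 := hp 2
  rw [hs 2 1] at p2
  have p3 : (f 3 2 + (f 3 4 + (f 3 8 + 0))) % 2 = 0 := hp 3
  rw [hs 3 2] at p3
  have p4 : (f 4 3 + (f 4 10 + (f 4 9 + 0))) % 2 = 0 := hp 4
  rw [hs 4 3] at p4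
  have p5 : (f 5 11 + (f 5 7 + (f 5 8 + 0))) % 2 = 0 := hp 5
  rw [hs 5 11, hs 5 8] at p5
  have p6 : (f 6 1 + (f 6 8 + (f 6 9 + 0))) % 2 = 0 := hp 6
  rw [hs 6 1, hs 6 9] at p6
  have p7 : (f 7 2 + (f 7 5 + (f 7 9 + 0))) % 2 = 0 := hp 7
  rw [hs 7 2, hs 7 5] at p7
  have p8 : (f 8 3 + (f 8 6 + (f 8 5 + 0))) % 2 = 0 := hp 8
  rw [hs 8 3, hs 8 6] at p8
  have p9 : (f 9 4 + (f 9 7 + (f 9 6 + 0))) % 2 = 0 := hp 9
  rw [hs 9 4, hs 9 7] at p9
  have p10 : (f 10 4 + (f 10 0 + (f 10 11 + 0))) % 2 = 0 := hp 10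
  rw [hs 10 4, hs 10 0] at p10
  have p11 : (f 11 5 + (f 11 0 + (f 11 10 + 0))) % 2 = 0 := hp 11
  rw [hs 11 0, hs 11 10] at p11
  exact pet (f 0 1) (h1 _ _) (f 0 10) (h1 _ _) (f 0 11) (h1 _ _) p0
    (f 4 10) (h1 _ _) (f 10 11) (h1 _ _) p10
    (f 11 5) (h1 _ _) p11
    (f 1 2) (h1 _ _) (f 1 6) (h1 _ _) p1
    (f 2 3) (h1 _ _) (f 2 7) (h1 _ _) p2
    (f 3 4) (h1 _ _) (f 3 8) (h1 _ _) p3
    (f 4 9) (h1 _ _) p4
    (f 5 7) (h1 _ _) (f 8 5) (h1 _ _) p5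
    (f 7 9) (h1 _ _) p7
    (f 9 6) (h1 _ _) p9
    (f 6 8) (h1 _ _) p6
    p8

lemma arith {a0 b0 a1 b1 a2 b2 a3 b3 a4 b4 a5 b5 a6 b6 a7 b7 a8 b8 a9 b9 a10 b10 a11 b11 a12 b12 a13 b13 a14 b14 : ℕ}
    (h1 : (a5 + a6 + a7 + a8 + a9 ≤ a0 + a1 + a2 + a3 + a4 + a10 + a11 + a12 + a13 + a14) ∧ (a5 + a6 + a7 + a8 + a9 = a0 + a1 + a2 + a3 + a4 + a10 + a11 + a12 + a13 + a14 → (a0 + a1 + a2 + a3 + a4 + a10 + a11 + a12 + a13 + a14) % 4 = 0))
    (h2 : (b5 + b6 + b7 + b8 + b9 ≤ b0 + b1 + b2 + b3 + b4 + b10 + b11 + b12 + b13 + b14) ∧ (b5 + b6 + b7 + b8 + b9 = b0 + b1 + b2 + b3 + b4 + b10 + b11 + b12 + b13 + b14 → (b0 + b1 + b2 + b3 + b4 + b10 + b11 + b12 + b13 + b14) % 4 = 0)) :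
    ((a5 + b5) + (a6 + b6) + (a7 + b7) + (a8 + b8) + (a9 + b9) ≤ (a0 + b0) + (a1 + b1) + (a2 + b2) + (a3 + b3) + (a4 + b4) + (a10 + b10) + (a11 + b11) + (a12 + b12) + (a13 + b13) + (a14 + b14)) ∧
    ((a5 + b5) + (a6 + b6) + (a7 + b7) + (a8 + b8) + (a9 + b9) = (a0 + b0) + (a1 + b1) + (a2 + b2) + (a3 + b3) + (a4 + b4) + (a10 + b10) + (a11 + b11) + (a12 + b12) + (a13 + b13) + (a14 + b14) →
    ((a0 + b0) + (a1 + b1) + (a2 + b2) + (a3 + b3) + (a4 + b4) + (a10 + b10) + (a11 + b11) + (a12 + b12) + (a13 + b13) + (a14 + b14)) % 4 = 0) := by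
  omega

lemma all (F : List (Σ u : Fin 12, G.Walk u u)) (hF : ∀ c ∈ F, c.2.IsCycle) :
    (∀ v, (∑ y, mu F v y) % 2 = 0) ∧
    (∑ v, ∑ y, mu F v y = 2 * (F.map (fun c => c.2.length)).sum) ∧ Good (mu F) ∧
    ∀ x y, mu F x y = F.countP (fun c => decide (s(x, y) ∈ c.2.edges)) := by
  induction F with
  | nil =>
    have : ∀ v, mu [] v = fun _ => 0 := fun v => rfl
    refine ⟨fun v => by simp [this], by simp [this], by simp [Good, this], fun _ _ => rfl⟩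
  | cons c F ih =>
    obtain ⟨i1, i2, i3, i4⟩ := ih (fun d hd => hF d (List.mem_cons_of_mem _ hd))
    have hc := hF c List.mem_cons_self
    have e : mu (c :: F) = fun x y => c.2.edges.count s(x, y) + mu F x y := by
      funext x y; simp [mu]
    rw [e]
    refine ⟨fun v => ?_, ?_, ?_, fun x y => ?_⟩
    · rw [sum_add_distrib]
      have := i1 v
      have := closed c.2 v
      omega
    · simp only [sum_add_distrib, i2, hand, List.map_cons, List.sum_cons]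
      ring
    · refine arith (good_one (fun x y => c.2.edges.count s(x, y)) (fun x y => by rw [Sym2.eq_swap])
        (fun x y => ?_) (fun v => ?_)) i3
      · have := List.nodup_iff_count_le_one.1 hc.edges_nodup s(x, y)
        omega
      · rw [← nsum _ v (cnt0 c.2 v)]
        exact closed c.2 v
    · rw [List.countP_cons, ← i4]
      by_cases hm : s(x, y) ∈ c.2.edges
      · simp [List.count_eq_one_of_mem hc.edges_nodup hm, hm, add_comm]
      · simp [List.count_eq_zero.2 hm, hm]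

def tour : G.Walk 0 0 :=
  .cons (show G.Adj 0 1 by decide) (.cons (show G.Adj 1 2 by decide) (.cons (show G.Adj 2 3 by decide) (.cons (show G.Adj 3 2 by decide) (.cons (show G.Adj 2 7 by decide) (.cons (show G.Adj 7 5 by decide) (.cons (show G.Adj 5 11 by decide) (.cons (show G.Adj 11 5 by decide) (.cons (show G.Adj 5 8 by decide) (.cons (show G.Adj 8 6 by decide) (.cons (show G.Adj 6 8 by decide) (.cons (show G.Adj 8 3 by decide) (.cons (show G.Adj 3 4 by decide) (.cons (show G.Adj 4 10 by decide) (.cons (show G.Adj 10 4 by decide) (.cons (show G.Adj 4 9 by decide) (.cons (show G.Adj 9 7 by decide) (.cons (show G.Adj 7 9 by decide) (.cons (show G.Adj 9 6 by decide) (.cons (show G.Adj 6 1 by decide) (.cons (show G.Adj 1 0 by decide) (.cons (show G.Adj 0 10 by decide) (.cons (show G.Adj 10 11 by decide) (.cons (show G.Adj 11 0 by decide) (.nil))))))))))))))))))))))))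

def w0 : G.Walk 0 0 :=
  .cons (show G.Adj 0 1 by decide) (.cons (show G.Adj 1 2 by decide) (.cons (show G.Adj 2 3 by decide) (.cons (show G.Adj 3 4 by decide) (.cons (show G.Adj 4 10 by decide) (.cons (show G.Adj 10 0 by decide) (.nil))))))

def w1 : G.Walk 0 0 :=
  .cons (show G.Adj 0 1 by decide) (.cons (show G.Adj 1 6 by decide) (.cons (show G.Adj 6 8 by decide) (.cons (show G.Adj 8 5 by decide) (.cons (show G.Adj 5 11 by decide) (.cons (show G.Adj 11 0 by decide) (.nil))))))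

def w2 : G.Walk 2 2 :=
  .cons (show G.Adj 2 3 by decide) (.cons (show G.Adj 3 8 by decide) (.cons (show G.Adj 8 6 by decide) (.cons (show G.Adj 6 9 by decide) (.cons (show G.Adj 9 7 by decide) (.cons (show G.Adj 7 2 by decide) (.nil))))))

def w3 : G.Walk 4 4 :=
  .cons (show G.Adj 4 10 by decide) (.cons (show G.Adj 10 11 by decide) (.cons (show G.Adj 11 5 by decide) (.cons (show G.Adj 5 7 by decide) (.cons (show G.Adj 7 9 by decide) (.cons (show G.Adj 9 4 by decide) (.nil))))))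

def F0 : List (Σ u : Fin 12, G.Walk u u) :=
  [⟨0, w0⟩, ⟨0, w1⟩, ⟨2, w2⟩, ⟨4, w3⟩]

lemma cpp_eq : cpp G = 24 := by
  refine IsLeast.csInf_eq ⟨⟨_, tour, ?_, rfl⟩, ?_⟩
  · have : ∀ v : Fin 12, ∀ w ∈ nb v, s(v, w) ∈ tour.edges := by decide +kernel
    intro e
    induction e using Sym2.ind with
    | h v w => exact fun h => this v w h
  · rintro l ⟨u, p, hp, rfl⟩
    have := low (fun x y => p.edges.count s(x, y))
      (fun x y h => List.count_pos_iff.2 (hp _ h)) (closed p)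
    rw [hand] at this
    omega

lemma scc_eq : scc G = 24 := by
  refine IsLeast.csInf_eq ⟨⟨F0, ?_, ?_, rfl⟩, ?_⟩
  · have : ∀ c ∈ F0, c.2.edges.Nodup ∧ c.2.length ≠ 0 ∧ c.2.support.tail.Nodup := by
      decide +kernel
    intro c hc
    obtain ⟨h1, h2, h3⟩ := this c hc
    refine (Walk.isCycle_def _).2 ⟨(Walk.isTrail_def _).2 h1, ?_, h3⟩
    intro h
    rw [h] at h2
    exact h2 rfl
  · have : ∀ v : Fin 12, ∀ w ∈ nb v, ∃ c ∈ F0, s(v, w) ∈ c.2.edges := by decide +kernel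
    intro e
    induction e using Sym2.ind with
    | h v w => exact fun h => this v w h
  · rintro l ⟨F, h1, h2, rfl⟩
    obtain ⟨i1, i2, -, i4⟩ := all F h1
    have := low (mu F) (fun x y h => by
      obtain ⟨c, hc, hm⟩ := h2 s(x, y) h
      rw [i4]
      exact List.countP_pos_iff.2 ⟨c, hc, decide_eq_true hm⟩) i1
    omega

def w (e : Sym2 (Fin 12)) : ℕ :=
  if e ∈ [s(11, 5), s(1, 6), s(2, 7), s(3, 8), s(4, 9), s(0, 10)] then 2 else 1

lemma inner (f : Fin 12 → Fin 12 → ℕ) (hs : ∀ x y, f x y = f y x) (h0 : ∀ x, f x x = 0)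
    (S : Finset (Fin 12)) : (∑ u ∈ S, ∑ v ∈ S, f u v) % 2 = 0 := by
  induction S using Finset.induction_on with
  | empty => simp
  | insert a S ha ih =>
    simp only [sum_insert ha, sum_add_distrib, h0]
    have : ∑ u ∈ S, f u a = ∑ u ∈ S, f a u := sum_congr rfl (fun u _ => hs u a)
    omega

lemma eul : Eulerian G w := by
  refine ⟨fun e _ => by unfold w; split_ifs <;> simp, fun S => ?_⟩
  let f : Fin 12 → Fin 12 → ℕ := fun u v => if G.Adj u v then w s(u, v) else 0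
  have h1 := inner f (by decide +kernel) (by decide +kernel) S
  have h2 : ∀ u, ∑ v, f u v = 4 := by decide +kernel
  have h3 : ∑ u ∈ S, ∑ v ∈ S, f u v + ∑ u ∈ S, ∑ v ∈ Sᶜ, f u v = S.card * 4 := by
    rw [← sum_add_distrib]
    simp only [sum_add_sum_compl, h2]
    simp
  have h4 : Even (∑ u ∈ S, ∑ v ∈ Sᶜ, f u v) := by
    rw [Nat.even_iff]
    omega
  convert h4

lemma not_cov : ¬ Coverable G w := by
  rintro ⟨F, h1, h2⟩
  obtain ⟨-, -, i3, i4⟩ := all F h1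
  have key : ∀ x y, G.Adj x y → mu F x y = w s(x, y) := fun x y h => (i4 x y).trans (h2 _ h)
  unfold Good at i3
  rw [key 0 1 (by decide), key 1 2 (by decide), key 2 3 (by decide), key 3 4 (by decide), key 4 10 (by decide), key 11 5 (by decide), key 1 6 (by decide), key 2 7 (by decide), key 3 8 (by decide), key 4 9 (by decide), key 5 7 (by decide), key 6 8 (by decide), key 7 9 (by decide), key 8 5 (by decide), key 9 6 (by decide)] at i3
  revert i3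
  decide +kernel

/-- A 3-connected graph with SCC = CPP need not have the cycle cover property. -/
theorem result : ¬ ∀ (n : ℕ) (G : SimpleGraph (Fin n)), ThreeConn G → scc G = cpp G →
    ∀ w : Sym2 (Fin n) → ℕ, Eulerian G w → Coverable G w :=
  fun h => not_cov (h 12 G conn (scc_eq.trans cpp_eq.symm) w eul)

end Pool.Agent.Results.MP_b9ebd9_co.Counter
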